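import Pool.Agent.H86.DB.Targets

/-!
MP_44217d_ag, board db_modules, row GNN: linear forms which cut down to finite length.
-/

set_option autoImplicit false

namespace Pool.Agent.H42.DB

open Module MvPolynomial
open Pool.Agent.H86.DB

universe u

/-- homogeneous polynomials of degree `n` lie in `J` if the Hilbert function vanishes at `n` -/
theorem mem_of_Hf {k : Type u} [Field k] {r : ℕ} (J : Ideal (MvPolynomial (Fin r) k)) (n : ℕ)
    (h : Hf J n = 0) (p : MvPolynomial (Fin r) k) (hp : p.IsHomogeneous n) : p ∈ J := by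
  have hfin : Module.Finite k (homogeneousSubmodule (Fin r) k n) :=
    Module.Finite.iff_fg.2 (homogeneousSubmodule_fg (Fin r) k n)
  have h1 : Module.Finite k
      ((homogeneousSubmodule (Fin r) k n).map (Ideal.Quotient.mkₐ k J).toLinearMap) :=
    Module.Finite.map _ _
  have h2 : (homogeneousSubmodule (Fin r) k n).map (Ideal.Quotient.mkₐ k J).toLinearMap = ⊥ :=
    Submodule.finrank_eq_zero.1 h
  have h3 : (Ideal.Quotient.mkₐ k J).toLinearMap p ∈
      (homogeneousSubmodule (Fin r) k n).map (Ideal.Quotient.mkₐ k J).toLinearMap :=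
    Submodule.mem_map_of_mem ((mem_homogeneousSubmodule n p).2 hp)
  rw [h2, Submodule.mem_bot] at h3
  exact Ideal.Quotient.eq_zero_iff_mem.1 h3

theorem pf_GNN (h1 : T_STEP.{u}) (h2 : T_CUT.{u}) (h3 : T_DISC) : T_GNN.{u} := by
  intro k _ _ r J m C hJ hC
  let cst : {K : Ideal (MvPolynomial (Fin r) k) // IsHom K} → Fin r → k :=
    fun K => (h1 k r K.1 K.2).choose
  have hcst : ∀ K : {K : Ideal (MvPolynomial (Fin r) k) // IsHom K}, ∃ n₀ : ℕ, ∀ n ≥ n₀,
      ∀ p : MvPolynomial (Fin r) k, p.IsHomogeneous n → lin (cst K) * p ∈ K.1 → p ∈ K.1 :=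
    fun K => (h1 k r K.1 K.2).choose_spec
  let nxt : {K : Ideal (MvPolynomial (Fin r) k) // IsHom K} →
      {K : Ideal (MvPolynomial (Fin r) k) // IsHom K} := fun K =>
    ⟨K.1 ⊔ Ideal.span {lin (cst K)},
      (h2 k r K.1 (cst K) (hcst K).choose K.2
        ((hcst K).choose_spec _ le_rfl)).1⟩
  let S : ℕ → {K : Ideal (MvPolynomial (Fin r) k) // IsHom K} := fun j => nxt^[j] ⟨J, hJ⟩
  have hS0 : S 0 = ⟨J, hJ⟩ := rfl
  have hSs : ∀ j, (S (j + 1)).1 = (S j).1 ⊔ Ideal.span {lin (cst (S j))} := by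
    intro j
    have h4 : S (j + 1) = nxt (S j) := Function.iterate_succ_apply' nxt j _
    rw [h4]
  obtain ⟨n, hn, hz⟩ := h3 m C (fun j n => Hf (S j).1 n) (by
    intro j _
    obtain ⟨n₀, hn₀⟩ := hcst (S j)
    refine ⟨n₀, fun n hn => ?_⟩
    have h4 := (h2 k r (S j).1 (cst (S j)) n (S j).2 (hn₀ n hn)).2
    show Hf (S (j + 1)).1 (n + 1) + Hf (S j).1 n ≤ Hf (S j).1 (n + 1)
    rw [hSs]
    exact h4) (by
    intro n
    exact hC n) 1
  obtain ⟨n', rfl⟩ : ∃ n', n = n' + 1 := ⟨n - 1, by omega⟩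
  refine ⟨fun j => cst (S j), n', fun p hp => ?_⟩
  have h5 : p ∈ (S m).1 := mem_of_Hf (S m).1 (n' + 1) hz p hp
  have h6 : ∀ j, j ≤ m → (S j).1 ≤
      J ⊔ Ideal.span (Set.range fun j : Fin m => lin (cst (S j))) := by
    intro j
    induction j with
    | zero =>
      intro _
      rw [hS0]
      exact le_sup_left
    | succ j ih =>
      intro hj
      rw [hSs]
      refine sup_le (ih (by omega)) ?_
      refine le_trans ?_ le_sup_right
      refine Ideal.span_mono ?_
      rintro _ rfl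
      exact ⟨⟨j, by omega⟩, rfl⟩
  exact h6 m le_rfl h5

end Pool.Agent.H42.DB
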