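import Pool.Agent.H86.DB.Targets

/-!
MP_44217d_ag, board db_modules, row SMO: powers of complete intersections are smoothable.
-/

set_option autoImplicit false

namespace Pool.Agent.H42.DB

open Module MvPolynomial
open Pool.Agent.H86.DB Pool.Agent.H12.Defect

universe u

section ideals

variable {A : Type u} [CommRing A] {m : ℕ}

/-- Newton products with constants zero -/
theorem nw_zero (F : Fin m → MvPolynomial (Fin m) A) (β : Fin m → ℕ) :
    nw F (fun _ _ => 0) β = ∏ j, F j ^ β j := by
  unfold nw
  refine Finset.prod_congr rfl fun j _ => ?_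
  rw [Finset.prod_congr rfl (fun i _ => show F j - C (0 : A) = F j by rw [C_0, sub_zero]),
    Finset.prod_const, Finset.card_range]

/-- the ideal of the Newton products with constants zero -/
theorem NI_zero (F : Fin m → MvPolynomial (Fin m) A) (N : ℕ) :
    NI F (fun _ _ => 0) N = Ideal.span (Set.range F) ^ N := by
  apply le_antisymm
  · unfold NI
    rw [Ideal.span_le]
    rintro p ⟨β, hβ, rfl⟩
    rw [nw_zero]
    show _ ∈ Ideal.span (Set.range F) ^ N
    rw [← hβ, ← Finset.prod_pow_eq_pow_sum]
    refine Ideal.prod_mem_prod fun j _ => ?_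
    have hj : F j ∈ Ideal.span (Set.range F) := Ideal.subset_span (Set.mem_range_self j)
    exact Ideal.pow_mem_pow hj _
  · induction N with
    | zero =>
      have h0 : NI F (fun _ _ => 0) 0 = ⊤ := by
        refine (Ideal.eq_top_iff_one _).2 ?_
        refine Ideal.subset_span ⟨fun _ => 0, by simp, ?_⟩
        rw [nw_zero]
        simp
      rw [h0]
      exact le_top
    | succ N ih =>
      rw [pow_succ]
      refine (Ideal.mul_mono_left ih).trans ?_
      unfold NI
      rw [Ideal.span_mul_span', Ideal.span_le]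
      rintro _ ⟨_, ⟨β, hβ, rfl⟩, _, ⟨j, rfl⟩, rfl⟩
      refine Ideal.subset_span ⟨β + Pi.single j 1, ?_, ?_⟩
      · simp only [Pi.add_apply]
        rw [Finset.sum_add_distrib, hβ, Finset.sum_pi_single']
        simp
      · rw [nw_zero, nw_zero]
        simp only [Pi.add_apply, pow_add]
        rw [Finset.prod_mul_distrib]
        have h1 : ∏ i, F i ^ (Pi.single j 1 : Fin m → ℕ) i = F j := by
          rw [Finset.prod_eq_single j]
          · simp
          · intro i _ hij
            simp [hij]
          · intro h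
            exact absurd (Finset.mem_univ j) h
        rw [h1]

/-- change of coefficients -/
theorem NI_map {A' : Type u} [CommRing A'] (φ : A →+* A') (F : Fin m → MvPolynomial (Fin m) A)
    (c : Fin m → ℕ → A) (F' : Fin m → MvPolynomial (Fin m) A') (c' : Fin m → ℕ → A')
    (hF : ∀ j, MvPolynomial.map φ (F j) = F' j) (hc : ∀ j i, φ (c j i) = c' j i) (N : ℕ) :
    (NI F c N).map (MvPolynomial.map φ) = NI F' c' N := by
  have h1 : ∀ β, MvPolynomial.map φ (nw F c β) = nw F' c' β := by
    intro β
    unfold nw
    rw [map_prod]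
    refine Finset.prod_congr rfl fun j _ => ?_
    rw [map_prod]
    refine Finset.prod_congr rfl fun i _ => ?_
    rw [map_sub, hF, MvPolynomial.map_C, hc]
  unfold NI
  rw [Ideal.map_span]
  refine congrArg Ideal.span (Set.ext fun p => ?_)
  constructor
  · rintro ⟨_, ⟨β, hβ, rfl⟩, rfl⟩
    exact ⟨β, hβ, h1 β⟩
  · rintro ⟨β, hβ, rfl⟩
    exact ⟨_, ⟨β, hβ, rfl⟩, h1 β⟩

end ideals

/-- kernels of maps between quotients -/
theorem ker_quotientMap {B B' : Type u} [CommRing B] [CommRing B'] (f : B →+* B')
    (hf : Function.Surjective f) (I : Ideal B) (I' : Ideal B') (hI : I.map f = I')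
    (h : I ≤ I'.comap f) :
    RingHom.ker (Ideal.quotientMap I' f h) = (RingHom.ker f).map (Ideal.Quotient.mk I) := by
  ext x
  obtain ⟨b, rfl⟩ := Ideal.Quotient.mk_surjective x
  rw [RingHom.mem_ker, Ideal.quotientMap_mk, Ideal.Quotient.eq_zero_iff_mem, ← hI,
    ← Ideal.mem_comap, Ideal.comap_map_of_surjective f hf, ← Ideal.mem_comap,
    Ideal.comap_map_of_surjective _ Ideal.Quotient.mk_surjective, sup_comm]
  have h1 : Ideal.comap f ⊥ = RingHom.ker f := rfl
  have h2 : Ideal.comap (Ideal.Quotient.mk I) ⊥ = I := by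
    have h3 : Ideal.comap (Ideal.Quotient.mk I) ⊥ = RingHom.ker (Ideal.Quotient.mk I) := rfl
    rw [h3, Ideal.mk_ker]
  rw [h1, h2]

/-- the fibre at `t` -/
theorem spec {k : Type u} [Field k] {m : ℕ} (t : k)
    (FT : Fin m → MvPolynomial (Fin m) (Polynomial k)) (cT : Fin m → ℕ → Polynomial k)
    (F' : Fin m → MvPolynomial (Fin m) k) (c' : Fin m → ℕ → k)
    (hF : ∀ j, MvPolynomial.map (Polynomial.evalRingHom t) (FT j) = F' j)
    (hc : ∀ j i, Polynomial.evalRingHom t (cT j i) = c' j i) (N : ℕ) :
    ∃ π : (MvPolynomial (Fin m) (Polynomial k) ⧸ NI FT cT N) →+*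
      (MvPolynomial (Fin m) k ⧸ NI F' c' N), Function.Surjective π ∧
      RingHom.ker π = Ideal.span {algebraMap (Polynomial k) _ (Polynomial.X - Polynomial.C t)} ∧
      ∀ r : k, π (algebraMap (Polynomial k) _ (Polynomial.C r)) = algebraMap k _ r := by
  have hm := NI_map (Polynomial.evalRingHom t) FT cT F' c' hF hc N
  have hle : NI FT cT N ≤ (NI F' c' N).comap (MvPolynomial.map (Polynomial.evalRingHom t)) :=
    Ideal.map_le_iff_le_comap.1 hm.le
  have hev : Function.Surjective (Polynomial.evalRingHom t) := fun r =>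
    ⟨Polynomial.C r, by simp⟩
  have hs : Function.Surjective (MvPolynomial.map (σ := Fin m) (Polynomial.evalRingHom t)) :=
    MvPolynomial.map_surjective _ hev
  refine ⟨Ideal.quotientMap _ (MvPolynomial.map (Polynomial.evalRingHom t)) hle,
    Ideal.quotientMap_surjective hs, ?_, ?_⟩
  · rw [ker_quotientMap _ hs _ _ hm, MvPolynomial.ker_map, Polynomial.ker_evalRingHom,
      Ideal.map_span, Ideal.map_span, Set.image_singleton, Set.image_singleton]
    rfl
  · intro r
    have h1 : algebraMap (Polynomial k) (MvPolynomial (Fin m) (Polynomial k) ⧸ NI FT cT N)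
        (Polynomial.C r) = Ideal.Quotient.mk _ (C (Polynomial.C r)) := rfl
    rw [h1, Ideal.quotientMap_mk, MvPolynomial.map_C]
    simp only [Polynomial.coe_evalRingHom, Polynomial.eval_C]
    rfl

section degree

variable {A : Type u} [CommRing A] {m : ℕ}

theorem totalDegree_aeval_le (j : Fin m) (P : Polynomial A) :
    (Polynomial.aeval (X j : MvPolynomial (Fin m) A) P).totalDegree ≤ P.natDegree := by
  rw [Polynomial.aeval_eq_sum_range]
  refine MvPolynomial.totalDegree_finsetSum_le fun i hi => ?_
  rw [Finset.mem_range] at hi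
  refine (MvPolynomial.totalDegree_smul_le _ _).trans ?_
  rcases subsingleton_or_nontrivial A with h | h
  · have h1 : (X j : MvPolynomial (Fin m) A) ^ i = 0 := Subsingleton.elim _ _
    rw [h1, totalDegree_zero]
    exact Nat.zero_le _
  · rw [MvPolynomial.totalDegree_X_pow]
    omega

theorem totalDegree_prod_sub [Nontrivial A] {R : ℕ} (hR : 1 ≤ R) (j : Fin m) (a : Fin R → A) :
    ((∏ i, (X j - C (a i)) : MvPolynomial (Fin m) A) - X j ^ R).totalDegree < R := by
  let Q : Polynomial A := ∏ i, (Polynomial.X - Polynomial.C (a i))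
  have hQ : Q.Monic := Polynomial.monic_prod_X_sub_C _ _
  have hd : Q.natDegree = R := by
    rw [Polynomial.natDegree_finsetProd_X_sub_C_eq_card]
    simp
  have h1 : (∏ i, (X j - C (a i)) : MvPolynomial (Fin m) A) - X j ^ R =
      Polynomial.aeval (X j : MvPolynomial (Fin m) A) (Q - Polynomial.X ^ R) := by
    rw [map_sub, map_pow, Polynomial.aeval_X, map_prod]
    simp only [map_sub, Polynomial.aeval_X, Polynomial.aeval_C]
    rfl
  rw [h1]
  refine (totalDegree_aeval_le j _).trans_lt ?_
  have h2 : (Q - Polynomial.X ^ R).degree < Q.degree := by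
    refine Polynomial.degree_sub_lt_left ?_ hQ.ne_zero ?_
    · rw [Polynomial.degree_X_pow, Polynomial.degree_eq_natDegree hQ.ne_zero, hd]
    · rw [hQ.leadingCoeff, (Polynomial.monic_X_pow R).leadingCoeff]
  rw [Polynomial.degree_eq_natDegree hQ.ne_zero, hd] at h2
  by_cases h0 : Q - Polynomial.X ^ R = 0
  · rw [h0, Polynomial.natDegree_zero]
    omega
  · exact (Polynomial.natDegree_lt_iff_degree_lt h0).2 h2

end degree

theorem pf_SMO (hQ : T_QB.{u}) (hC : T_CARD) (hP : T_PTS.{u}) (hF : T_FAM.{u}) : T_SMO.{u} := by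
  have main : ∀ (k : Type u) [Field k] [IsAlgClosed k] (m R : ℕ)
      (F : Fin m → MvPolynomial (Fin m) k) (n : ℕ), 1 ≤ R → Lead R F →
      IsSmoothable k (MvPolynomial (Fin m) k ⧸ Ideal.span (Set.range F) ^ (n + 1)) ∧
      finrank k (MvPolynomial (Fin m) k ⧸ Ideal.span (Set.range F) ^ (n + 1)) =
        R ^ m * (n + m).choose m := by
    intro k _ _ m R F n hR hL
    rw [← NI_zero]
    constructor
    · obtain ⟨a, c, hred⟩ := hP k m R n hR
      let FT : Fin m → MvPolynomial (Fin m) (Polynomial k) := fun j =>
        C (1 - Polynomial.X) * MvPolynomial.map Polynomial.C (F j) +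
          C Polynomial.X * ∏ i, (X j - C (Polynomial.C (a i)))
      let cT : Fin m → ℕ → Polynomial k := fun _ i => Polynomial.X * Polynomial.C (c i)
      have hLT : Lead R FT := by
        intro j
        have h1 : FT j - X j ^ R = C (1 - Polynomial.X) *
            MvPolynomial.map Polynomial.C (F j - X j ^ R) +
            C Polynomial.X * ((∏ i, (X j - C (Polynomial.C (a i)))) - X j ^ R) := by
          show C (1 - Polynomial.X) * MvPolynomial.map Polynomial.C (F j) +
            C Polynomial.X * ∏ i, (X j - C (Polynomial.C (a i))) - X j ^ R = _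
          have h2 : MvPolynomial.map Polynomial.C (F j - X j ^ R) =
              MvPolynomial.map Polynomial.C (F j) - X j ^ R := by
            rw [map_sub, map_pow, MvPolynomial.map_X]
          rw [h2, C_sub, C_1]
          ring
        rw [h1]
        refine (totalDegree_add _ _).trans_lt (max_lt ?_ ?_)
        · refine (totalDegree_mul _ _).trans_lt ?_
          rw [totalDegree_C, zero_add]
          exact (Finset.sup_mono (MvPolynomial.support_map_subset _ _) :
            (MvPolynomial.map Polynomial.C (F j - X j ^ R)).totalDegree ≤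
              (F j - X j ^ R).totalDegree).trans_lt (hL j)
        · refine (totalDegree_mul _ _).trans_lt ?_
          rw [totalDegree_C, zero_add]
          exact totalDegree_prod_sub hR j fun i => Polynomial.C (a i)
      have hcomp : ∀ t : k, (Polynomial.evalRingHom t).comp Polynomial.C = RingHom.id k := by
        intro t
        ext r
        simp
      obtain ⟨π₀, hs₀, hk₀, hr₀⟩ := spec (0 : k) FT cT F (fun _ _ => 0) (by
        intro j
        show MvPolynomial.map (Polynomial.evalRingHom 0) (C (1 - Polynomial.X) *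
          MvPolynomial.map Polynomial.C (F j) +
          C Polynomial.X * ∏ i, (X j - C (Polynomial.C (a i)))) = F j
        rw [map_add, map_mul, map_mul, MvPolynomial.map_map, hcomp, MvPolynomial.map_C,
          MvPolynomial.map_C, MvPolynomial.map_id]
        simp) (by
        intro j i
        show Polynomial.evalRingHom 0 (Polynomial.X * Polynomial.C (c i)) = 0
        simp) (n + 1)
      obtain ⟨π₁, hs₁, hk₁, hr₁⟩ := spec (1 : k) FT cT (fun j => ∏ i, (X j - C (a i)))
        (fun _ => c) (by
        intro j
        show MvPolynomial.map (Polynomial.evalRingHom 1) (C (1 - Polynomial.X) *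
          MvPolynomial.map Polynomial.C (F j) +
          C Polynomial.X * ∏ i, (X j - C (Polynomial.C (a i)))) = ∏ i, (X j - C (a i))
        rw [map_add, map_mul, map_mul, MvPolynomial.map_C, MvPolynomial.map_C, map_prod]
        simp) (by
        intro j i
        show Polynomial.evalRingHom 1 (Polynomial.X * Polynomial.C (c i)) = c i
        simp) (n + 1)
      obtain ⟨b, -⟩ := hQ (Polynomial k) m R FT cT n hLT
      refine hF k _ _ _ π₀ π₁ (Module.Finite.of_basis b) (Module.Free.of_basis b) hs₀ hs₁ ?_ ?_
        hr₀ hr₁ hred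
      · rw [hk₀, Polynomial.C_0, sub_zero]
      · rw [hk₁, Polynomial.C_1]
    · obtain ⟨b, -⟩ := hQ k m R F (fun _ _ => 0) n hL
      rw [Module.finrank_eq_card_basis b, hC]
  intro k _ _ m R F n hL
  rcases Nat.eq_zero_or_pos R with rfl | hR
  · rcases Nat.eq_zero_or_pos m with rfl | hm
    · have h1 := main k 0 1 F n le_rfl (fun j => j.elim0)
      rw [pow_zero] at h1 ⊢
      exact h1
    · exact absurd (hL ⟨0, hm⟩) (Nat.not_lt_zero _)
  · exact main k m R F n hR hL

end Pool.Agent.H42.DB
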